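import Pool.Agent.E8helper59.TS.Stm4

/-!
# Points of a box that are separated in `d + 2` directions (project TS, part CNTD)
-/

set_option autoImplicit false

namespace Pool.Agent.E8helper42.TS

open Pool.Agent.E8helper59.TS

lemma slab_mono {α : Type} {g : α → ℝ} {F F' : Finset α} (h : F' ⊆ F) {t s : α}
    (hs : Slab g F t s) : Slab g F' t s := by
  obtain ⟨c, h1, h2, h3⟩ := hs
  exact ⟨c, h1, h2, fun r hr => h3 r (h hr)⟩

lemma prod_upd {d : ℕ} (l : Fin d → ℝ) (j : Fin d) (x : ℝ) :
    ∏ k, (1 + Function.update l j x k) = (1 + x) * ∏ k ∈ Finset.univ.erase j, (1 + l k) := by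
  rw [← Finset.mul_prod_erase Finset.univ _ (Finset.mem_univ j), Function.update_self]
  congr 1
  refine Finset.prod_congr rfl fun k hk => ?_
  rw [Function.update_of_ne (Finset.ne_of_mem_erase hk)]

theorem t_CNTD (h1 : S_CELL) (h2 : S_PRD) : S_CNTD := by
  classical
  intro d p q F
  induction F using Finset.strongInduction with
  | H F ih =>
    intro b l hpq hl hbox hsep
    by_cases hA : ∃ t ∈ F, ∃ s ∈ F, ∃ j, Slab (fun y : Fin d → ℝ => y j) F t s
    · obtain ⟨t, ht, s, hs, j, c, h3, h4, h5⟩ := hA
      have h3' : t j ≤ c := h3
      have h4' : c + 1 ≤ s j := h4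
      have h5' : ∀ r ∈ F, r j ≤ c ∨ c + 1 ≤ r j := h5
      set F1 := F.filter (fun r => r j ≤ c) with hF1
      set F2 := F.filter (fun r => ¬ r j ≤ c) with hF2
      have hsub1 : F1 ⊂ F := by
        refine Finset.ssubset_iff_subset_ne.2 ⟨Finset.filter_subset _ _, fun he => ?_⟩
        rw [← he, hF1, Finset.mem_filter] at hs
        linarith [hs.2]
      have hsub2 : F2 ⊂ F := by
        refine Finset.ssubset_iff_subset_ne.2 ⟨Finset.filter_subset _ _, fun he => ?_⟩
        rw [← he, hF2, Finset.mem_filter] at ht
        exact ht.2 h3'
      have hcard : F1.card + F2.card = F.card := by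
        rw [hF1, hF2]
        exact Finset.card_filter_add_card_filter_not _
      have hsep' : ∀ F' ⊆ F, ∀ t ∈ F', ∀ s ∈ F', t ≠ s →
          (∃ j, Slab (fun y : Fin d → ℝ => y j) F' t s ∨ Slab (fun y : Fin d → ℝ => y j) F' s t) ∨
          Slab (fun y => ∑ j, p j * y j) F' t s ∨ Slab (fun y => ∑ j, p j * y j) F' s t ∨
          Slab (fun y => ∑ j, q j * y j) F' t s ∨ Slab (fun y => ∑ j, q j * y j) F' s t := by
        intro F' hF' t ht s hs hts
        rcases hsep t (hF' ht) s (hF' hs) hts with ⟨j, h6 | h6⟩ | h6 | h6 | h6 | h6
        · exact Or.inl ⟨j, Or.inl (slab_mono hF' h6)⟩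
        · exact Or.inl ⟨j, Or.inr (slab_mono hF' h6)⟩
        · exact Or.inr (Or.inl (slab_mono hF' h6))
        · exact Or.inr (Or.inr (Or.inl (slab_mono hF' h6)))
        · exact Or.inr (Or.inr (Or.inr (Or.inl (slab_mono hF' h6))))
        · exact Or.inr (Or.inr (Or.inr (Or.inr (slab_mono hF' h6))))
      have hbt := hbox t ht j
      have hbs := hbox s hs j
      have e1 : (F1.card : ℝ) ≤ ∏ k, (1 + Function.update l j (c - b j) k) := by
        apply ih F1 hsub1 b _ hpq
        · intro k
          by_cases hk : k = j
          · subst hk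
            rw [Function.update_self]
            linarith [hbt.1]
          · rw [Function.update_of_ne hk]
            exact hl k
        · intro r hr k
          rw [hF1, Finset.mem_filter] at hr
          by_cases hk : k = j
          · subst hk
            rw [Function.update_self]
            exact ⟨(hbox r hr.1 k).1, by linarith [hr.2]⟩
          · rw [Function.update_of_ne hk]
            exact hbox r hr.1 k
        · exact hsep' F1 hsub1.1
      have e2 : (F2.card : ℝ) ≤ ∏ k, (1 + Function.update l j (b j + l j - c - 1) k) := by
        apply ih F2 hsub2 (Function.update b j (c + 1)) _ hpq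
        · intro k
          by_cases hk : k = j
          · subst hk
            rw [Function.update_self]
            linarith [hbs.2]
          · rw [Function.update_of_ne hk]
            exact hl k
        · intro r hr k
          rw [hF2, Finset.mem_filter] at hr
          by_cases hk : k = j
          · subst hk
            rw [Function.update_self, Function.update_self]
            have h7 := (h5' r hr.1).resolve_left hr.2
            exact ⟨h7, by linarith [(hbox r hr.1 k).2]⟩
          · rw [Function.update_of_ne hk, Function.update_of_ne hk]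
            exact hbox r hr.1 k
        · exact hsep' F2 hsub2.1
      rw [prod_upd] at e1 e2
      rw [← hcard, ← Finset.mul_prod_erase Finset.univ _ (Finset.mem_univ j)]
      push_cast
      have e3 : (1 + (c - b j)) * ∏ k ∈ Finset.univ.erase j, (1 + l k) +
          (1 + (b j + l j - c - 1)) * ∏ k ∈ Finset.univ.erase j, (1 + l k) =
          (1 + l j) * ∏ k ∈ Finset.univ.erase j, (1 + l k) := by ring
      linarith
    · push Not at hA
      refine (h1 d p q F b l hpq hl hbox ?_).trans (h2 d l hl)
      intro t ht s hs hts
      rcases hsep t ht s hs hts with ⟨j, h6 | h6⟩ | h6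
      · exact absurd h6 (hA t ht s hs j)
      · exact absurd h6 (hA s hs t ht j)
      · exact h6

end Pool.Agent.E8helper42.TS
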