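import Pool.Agent.E8helper59.TS.Stm

/-!
# The area of the corner (project TS, part COR)
-/

set_option autoImplicit false
open MeasureTheory Set Filter Topology
open scoped Pointwise ENNReal

namespace Pool.Agent.E8helper42.TS

open Pool.Agent.E8helper59.TS

/-- the strip -/
def St (m h : ℝ) : Set (ℝ × ℝ) := {q | |q.1| < 1 / 2 ∧ |q.2 - m * q.1| ≤ h}

lemma St_meas (m h : ℝ) : MeasurableSet (St m h) := by
  have h1 : MeasurableSet {q : ℝ × ℝ | |q.1| < 1 / 2} :=
    (isOpen_lt (by fun_prop) (by fun_prop)).measurableSet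
  have h2 : MeasurableSet {q : ℝ × ℝ | |q.2 - m * q.1| ≤ h} :=
    (isClosed_le (by fun_prop) (by fun_prop)).measurableSet
  exact h1.inter h2

lemma St_vol (m h : ℝ) (hh : 0 ≤ h) : volume (St m h) = ENNReal.ofReal (2 * h) := by
  rw [Measure.volume_eq_prod, Measure.prod_apply (St_meas m h)]
  have h1 : (fun x : ℝ => volume (Prod.mk x ⁻¹' St m h)) =
      (Ioo (-(1 / 2) : ℝ) (1 / 2)).indicator (fun _ => ENNReal.ofReal (2 * h)) := by
    funext x
    by_cases hx : |x| < 1 / 2
    · have hxm : x ∈ Ioo (-(1 / 2) : ℝ) (1 / 2) := abs_lt.1 hx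
      rw [indicator_of_mem hxm]
      have h2 : Prod.mk x ⁻¹' St m h = Icc (m * x - h) (m * x + h) := by
        ext y
        simp only [St, mem_preimage, mem_setOf_eq, mem_Icc, hx, true_and, abs_le]
        constructor
        · rintro ⟨h3, h4⟩; constructor <;> linarith
        · rintro ⟨h3, h4⟩; constructor <;> linarith
      rw [h2, Real.volume_Icc]
      congr 1
      ring
    · have hxm : x ∉ Ioo (-(1 / 2) : ℝ) (1 / 2) := fun h3 => hx (abs_lt.2 h3)
      rw [indicator_of_notMem hxm]
      have h2 : Prod.mk x ⁻¹' St m h = ∅ := by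
        ext y
        simp only [St, mem_preimage, mem_setOf_eq, hx, false_and, mem_empty_iff_false]
      rw [h2, measure_empty]
  rw [h1, lintegral_indicator measurableSet_Ioo, setLIntegral_const, Real.volume_Ioo]
  norm_num

lemma sec {B : Set (ℝ × ℝ)} (hB : Bod B) (h1 : ∃ p ∈ B, p.1 = 1 / 2) {x : ℝ} (hx : |x| ≤ 1 / 2) :
    ∃ y, (x, y) ∈ B := by
  obtain ⟨p, hp, hp1⟩ := h1
  rw [abs_le] at hx
  have h2 := hB.symm p hp
  have h3 := hB.conv hp h2 (a := 1 / 2 + x) (b := 1 / 2 - x) (by linarith) (by linarith) (by ring)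
  refine ⟨2 * x * p.2, ?_⟩
  have e : (1 / 2 + x) • p + (1 / 2 - x) • (-p) = (x, 2 * x * p.2) := by
    ext
    · simp only [Prod.fst_add, Prod.smul_fst, Prod.fst_neg, smul_eq_mul]
      rw [hp1]; ring
    · simp only [Prod.snd_add, Prod.smul_snd, Prod.snd_neg, smul_eq_mul]
      ring
  rwa [e] at h3

lemma up_meas {B : Set (ℝ × ℝ)} (hB : Bod B) :
    MeasurableSet {q : ℝ × ℝ | ∀ y, (q.1, y) ∈ B → y < q.2} := by
  have h1 : IsClosed (B + ({0} ×ˢ Iic (0 : ℝ) : Set (ℝ × ℝ))) :=
    IsClosed.add_left_of_isCompact (isClosed_singleton.prod isClosed_Iic) hB.comp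
  have h2 : {q : ℝ × ℝ | ∀ y, (q.1, y) ∈ B → y < q.2} = (B + ({0} ×ˢ Iic (0 : ℝ) : Set (ℝ × ℝ)))ᶜ := by
    ext q
    rw [mem_compl_iff]
    constructor
    · rintro h3 ⟨b, hb, c, hc, rfl⟩
      rw [mem_prod, mem_singleton_iff, mem_Iic] at hc
      have h4 := h3 b.2 (by
        have : (b + c).1 = b.1 := by rw [Prod.fst_add, hc.1, add_zero]
        show ((b + c).1, b.2) ∈ B
        rw [this]; exact hb)
      have h5 : (b + c).2 = b.2 + c.2 := rfl
      have h6 : b.2 < b.2 + c.2 := h4
      linarith [hc.2]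
    · intro h3 y hy
      by_contra h4
      push Not at h4
      apply h3
      refine ⟨(q.1, y), hy, (0, q.2 - y), ?_, ?_⟩
      · rw [mem_prod]
        exact ⟨rfl, by rw [mem_Iic]; show q.2 - y ≤ 0; linarith⟩
      · ext
        · simp
        · simp
  rw [h2]
  exact h1.measurableSet.compl

theorem t_COR : S_COR := by
  intro B m h hB hx1 hx2 hh
  -- the origin
  have h00 : (0 : ℝ) ≤ h := by
    obtain ⟨y, hy⟩ := sec hB hx2 (x := 0) (by norm_num)
    have h1 := hh _ hy
    have h2 := hh _ (hB.symm _ hy)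
    simp only [Prod.neg_mk] at h1 h2
    linarith
  have hlow : ∀ p ∈ B, -h ≤ p.2 - m * p.1 := by
    intro p hp
    have h2 := hh _ (hB.symm _ hp)
    simp only [Prod.fst_neg, Prod.snd_neg] at h2
    linarith
  set U := Corner B m h with hU
  have hUm : MeasurableSet U := by
    have h1 : MeasurableSet {q : ℝ × ℝ | |q.1| < 1 / 2} :=
      (isOpen_lt (by fun_prop) (by fun_prop)).measurableSet
    have h2 : MeasurableSet {q : ℝ × ℝ | q.2 - m * q.1 ≤ h} :=
      (isClosed_le (by fun_prop) (by fun_prop)).measurableSet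
    exact h1.inter (h2.inter (up_meas hB))
  have hUS : U ⊆ St m h := by
    rintro q ⟨h1, h2, h3⟩
    obtain ⟨y, hy⟩ := sec hB hx2 h1.le
    have h4 := h3 y hy
    have h5 := hlow _ hy
    refine ⟨h1, abs_le.2 ⟨?_, h2⟩⟩
    simp only at h5
    linarith
  have hVS : -U ⊆ St m h := by
    intro q hq
    have h1 := hUS (Set.mem_neg.1 hq)
    obtain ⟨h2, h3⟩ := h1
    simp only [Prod.fst_neg, Prod.snd_neg, abs_neg] at h2 h3
    refine ⟨h2, ?_⟩
    rw [abs_le] at h3 ⊢
    constructor <;> linarith [h3.1, h3.2]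
  set B' : Set (ℝ × ℝ) := B ∩ {q | |q.1| < 1 / 2} with hB'
  have hBm : MeasurableSet B := hB.comp.isClosed.measurableSet
  have hB'm : MeasurableSet B' :=
    hBm.inter (isOpen_lt (by fun_prop) (by fun_prop)).measurableSet
  have hBS : B' ⊆ St m h := by
    rintro q ⟨h1, h2⟩
    exact ⟨h2, abs_le.2 ⟨hlow q h1, hh q h1⟩⟩
  have hcov : St m h = (U ∪ -U) ∪ B' := by
    apply Subset.antisymm
    · rintro q ⟨h1, h2⟩
      rw [abs_le] at h2
      by_cases h3 : q ∈ U
      · exact Or.inl (Or.inl h3)
      by_cases h4 : q ∈ -U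
      · exact Or.inl (Or.inr h4)
      right
      refine ⟨?_, h1⟩
      have h5 : ∃ y, (q.1, y) ∈ B ∧ q.2 ≤ y := by
        by_contra hc
        push Not at hc
        exact h3 ⟨h1, h2.2, hc⟩
      have h6 : ∃ y, (-q.1, y) ∈ B ∧ -q.2 ≤ y := by
        by_contra hc
        push Not at hc
        apply h4
        rw [Set.mem_neg]
        refine ⟨?_, ?_, hc⟩
        · simpa using h1
        · simp only [Prod.fst_neg, Prod.snd_neg]
          linarith [h2.1]
      obtain ⟨y, hy, hy2⟩ := h5
      obtain ⟨z, hz, hz2⟩ := h6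
      have hz3 := hB.symm _ hz
      have e1 : -((-q.1, z) : ℝ × ℝ) = (q.1, -z) := by simp
      rw [e1] at hz3
      -- q is between
      rcases (show -z ≤ y by linarith).eq_or_lt with h7 | h7
      · have : q = (q.1, y) := by
          ext
          · rfl
          · show q.2 = y
            linarith
        rw [this]; exact hy
      · have h8 := hB.conv hy hz3 (a := (q.2 + z) / (y + z)) (b := (y - q.2) / (y + z))
          (div_nonneg (by linarith) (by linarith)) (div_nonneg (by linarith) (by linarith))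
          (by
            have : y + z ≠ 0 := by linarith
            field_simp
            ring)
        have e2 : ((q.2 + z) / (y + z)) • ((q.1, y) : ℝ × ℝ) +
            ((y - q.2) / (y + z)) • ((q.1, -z) : ℝ × ℝ) = q := by
          have : y + z ≠ 0 := by linarith
          ext
          · simp only [Prod.fst_add, Prod.smul_fst, smul_eq_mul]
            field_simp
            ring
          · simp only [Prod.snd_add, Prod.smul_snd, smul_eq_mul]
            field_simp
            ring
        rwa [e2] at h8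
    · exact union_subset (union_subset hUS hVS) hBS
  have hd1 : Disjoint U (-U) := by
    rw [Set.disjoint_left]
    intro q h1 h2
    obtain ⟨y, hy⟩ := sec hB hx2 h1.1.le
    have h3 := h1.2.2 y hy
    have h4 := (Set.mem_neg.1 h2).2.2 (-y) (by
      have := hB.symm _ hy
      simpa using this)
    simp only [Prod.snd_neg] at h4
    linarith
  have hd2 : Disjoint (U ∪ -U) B' := by
    rw [Set.disjoint_left]
    rintro q (h1 | h1) h2
    · exact lt_irrefl _ (h1.2.2 q.2 h2.1)
    · exact lt_irrefl _ ((Set.mem_neg.1 h1).2.2 (-q).2 (hB.symm _ h2.1))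
  have hnull : volume (B \ B') = 0 := by
    have h1 : B \ B' ⊆ ({(1 / 2 : ℝ)} ×ˢ univ) ∪ ({(-(1 / 2) : ℝ)} ×ˢ univ) := by
      rintro q ⟨h2, h3⟩
      have h4 := hx1 q h2
      have h5 : |q.1| = 1 / 2 := by
        refine le_antisymm h4 ?_
        by_contra hc
        push Not at hc
        exact h3 ⟨h2, hc⟩
      rcases (abs_eq (by norm_num)).1 h5 with h6 | h6
      · left; exact ⟨h6, mem_univ _⟩
      · right; exact ⟨h6, mem_univ _⟩
    refine measure_mono_null h1 (measure_union_null ?_ ?_)
    · rw [Measure.volume_eq_prod, Measure.prod_prod]; simp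
    · rw [Measure.volume_eq_prod, Measure.prod_prod]; simp
  have hBB : volume B' = volume B := by
    have h1 : B' ⊆ B := inter_subset_left
    refine le_antisymm (measure_mono h1) ?_
    calc volume B = volume (B' ∪ B \ B') := by rw [union_diff_cancel h1]
      _ ≤ volume B' + volume (B \ B') := measure_union_le _ _
      _ = volume B' := by rw [hnull, add_zero]
  have hneg : volume (-U) = volume U := Measure.measure_neg volume U
  have hvol : volume U + volume U + volume B = ENNReal.ofReal (2 * h) := by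
    rw [← St_vol m h h00, hcov, measure_union hd2 hB'm, measure_union hd1 hUm.neg, hneg, hBB]
  have hUfin : volume U ≠ ⊤ := by
    refine ne_top_of_le_ne_top ENNReal.ofReal_ne_top (b := ENNReal.ofReal (2 * h)) ?_
    rw [← St_vol m h h00]
    exact measure_mono hUS
  refine ⟨hUm, hUfin, ?_⟩
  have hBfin : volume B ≠ ⊤ := hB.comp.measure_lt_top.ne
  have h9 := congrArg ENNReal.toReal hvol
  rw [ENNReal.toReal_add (ENNReal.add_ne_top.2 ⟨hUfin, hUfin⟩) hBfin,
    ENNReal.toReal_add hUfin hUfin, ENNReal.toReal_ofReal (by linarith)] at h9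
  linarith

end Pool.Agent.E8helper42.TS
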