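import Pool.Agent.E8helper59.TS.Stm3

/-!
# Separations of several types (project TS, part PROD)
-/

set_option autoImplicit false

namespace Pool.Agent.E8helper42.TS

open Pool.Agent.E8helper59.TS

/-- `t` and `s` are separated by a member of `H` -/
def Sp {α : Type} (H : Set (Set α)) (t s : α) : Prop :=
  ∃ S ∈ H, (t ∈ S ∧ s ∉ S) ∨ (s ∈ S ∧ t ∉ S)

lemma prod_aux {α ι : Type} (H : ι → Set (Set α)) (b : ι → ℝ) (hb : ∀ i, 0 ≤ b i)
    (I : Finset ι) : ∀ F : Finset α,
    (∀ t ∈ F, ∀ s ∈ F, t ≠ s → ∃ i ∈ I, Sp (H i) t s) →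
    (∀ i ∈ I, ∀ F' ⊆ F, (∀ t ∈ F', ∀ s ∈ F', t ≠ s → Sp (H i) t s) → (F'.card : ℝ) ≤ b i) →
    (F.card : ℝ) ≤ ∏ i ∈ I, b i := by
  classical
  induction I using Finset.induction_on with
  | empty =>
    intro F h1 _
    rw [Finset.prod_empty]
    have h2 : F.card ≤ 1 := by
      rw [Finset.card_le_one]
      intro t ht s hs
      by_contra hne
      obtain ⟨i, hi, _⟩ := h1 t ht s hs hne
      simp at hi
    exact_mod_cast h2
  | insert i I hiI ih =>
    intro F h1 h2
    rw [Finset.prod_insert hiI]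
    have hP : 0 ≤ ∏ i ∈ I, b i := Finset.prod_nonneg fun i _ => hb i
    rcases F.eq_empty_or_nonempty with hF | ⟨t0, ht0⟩
    · subst hF
      simpa using mul_nonneg (hb i) hP
    haveI : Nonempty α := ⟨t0⟩
    set c : α → Set (Set α) := fun t => {S | S ∈ H i ∧ t ∈ S} with hc
    have hsep : ∀ t s, c t ≠ c s → Sp (H i) t s := by
      intro t s hts
      by_contra hcon
      apply hts
      ext S
      constructor
      · rintro ⟨h3, h4⟩
        refine ⟨h3, ?_⟩
        by_contra h5
        exact hcon ⟨S, h3, Or.inl ⟨h4, h5⟩⟩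
      · rintro ⟨h3, h4⟩
        refine ⟨h3, ?_⟩
        by_contra h5
        exact hcon ⟨S, h3, Or.inr ⟨h4, h5⟩⟩
    have hnsep : ∀ t s, c t = c s → ¬ Sp (H i) t s := by
      rintro t s hts ⟨S, hS, h3 | h3⟩
      · have h4 : S ∈ c t := ⟨hS, h3.1⟩
        rw [hts] at h4
        exact h3.2 h4.2
      · have h4 : S ∈ c s := ⟨hS, h3.1⟩
        rw [← hts] at h4
        exact h3.2 h4.2
    have hrep : ∀ v ∈ F.image c, ∃ t ∈ F, c t = v := fun v hv => Finset.mem_image.1 hv
    choose! r hr1 hr2 using hrep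
    have hcard : ((F.image c).card : ℝ) ≤ b i := by
      have h3 : ((F.image c).image r).card = (F.image c).card := by
        apply Finset.card_image_of_injOn
        intro v hv w hw hvw
        have e1 := hr2 v (Finset.mem_coe.1 hv)
        have e2 := hr2 w (Finset.mem_coe.1 hw)
        rw [← e1, ← e2]
        exact congrArg c hvw
      rw [← h3]
      apply h2 i (Finset.mem_insert_self _ _)
      · intro t ht
        obtain ⟨v, hv, rfl⟩ := Finset.mem_image.1 ht
        exact hr1 v hv
      · intro t ht s hs hts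
        obtain ⟨v, hv, rfl⟩ := Finset.mem_image.1 ht
        obtain ⟨w, hw, rfl⟩ := Finset.mem_image.1 hs
        apply hsep
        rw [hr2 v hv, hr2 w hw]
        intro hvw
        exact hts (by rw [hvw])
    have hfib : ∀ v ∈ F.image c, ((F.filter fun t => c t = v).card : ℝ) ≤ ∏ i ∈ I, b i := by
      intro v _
      apply ih
      · intro t ht s hs hts
        rw [Finset.mem_filter] at ht hs
        obtain ⟨k, hk, hk2⟩ := h1 t ht.1 s hs.1 hts
        rcases Finset.mem_insert.1 hk with h4 | h4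
        · subst h4
          exact absurd hk2 (hnsep t s (ht.2.trans hs.2.symm))
        · exact ⟨k, h4, hk2⟩
      · intro k hk F' hF' h5
        exact h2 k (Finset.mem_insert_of_mem hk) F' (hF'.trans (Finset.filter_subset _ _)) h5
    have h6 : F.card = ∑ v ∈ F.image c, (F.filter fun t => c t = v).card :=
      Finset.card_eq_sum_card_image c F
    rw [h6]
    push_cast
    calc ∑ v ∈ F.image c, ((F.filter fun t => c t = v).card : ℝ)
        ≤ ∑ v ∈ F.image c, ∏ i ∈ I, b i := Finset.sum_le_sum hfib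
      _ = (F.image c).card * ∏ i ∈ I, b i := by rw [Finset.sum_const, nsmul_eq_mul]
      _ ≤ b i * ∏ i ∈ I, b i := mul_le_mul_of_nonneg_right hcard hP

theorem t_PROD : S_PROD := by
  intro α ι _ F H b h1 hb h2
  apply prod_aux H b hb Finset.univ F
  · intro t ht s hs hts
    obtain ⟨i, S, hS, h3⟩ := h1 t ht s hs hts
    exact ⟨i, Finset.mem_univ i, S, hS, Or.inl h3⟩
  · intro i _ F' hF' h3
    exact h2 i F' hF' h3

end Pool.Agent.E8helper42.TS
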